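import Pool.Agent.Helper675.LS.Main

/-!
Linked systems of symmetric designs on a prime number `v` of points: the number of sets.
-/

set_option autoImplicit false

namespace Pool.Agent.Results.MP_65f012_co.NumberOfSets

open Pool.Agent.Helper675.LS

/-- If a system of `μ > 2` linked symmetric designs on `v` points exists and `v` is prime (or, more
generally, all block sizes `k i j` are coprime to `v`), then `μ ≤ 2 ^ (ω(v - 1) - 1)`. -/
theorem result {μ v : ℕ} {k lam : Fin μ → Fin μ → ℕ} {S : Fin μ → Type}
    {I : ∀ i j, S i → S j → Prop} (H : IsLinkedSystem v k lam S I)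
    (hc : v.Prime ∨ ∀ i j, i ≠ j → (k i j).Coprime v) :
    μ ≤ 2 ^ ((v - 1).primeFactors.card - 1) :=
  (main H hc).2.1

end Pool.Agent.Results.MP_65f012_co.NumberOfSets
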