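import Pool.Agent.Helper675.LS.Main

/-!
Linked systems of symmetric designs on a prime number `v` of points: block sizes of designs which
share a set.
-/

set_option autoImplicit false

namespace Pool.Agent.Results.MP_65f012_co.SharedSetSizes

open Pool.Agent.Helper675.LS

/-- In a system of `μ > 2` linked symmetric designs on `v` points with `v` prime (or, more generally,
with all block sizes `k i j` coprime to `v`), two designs which share one of the sets never have
equal or complementary block sizes. -/
theorem result {μ v : ℕ} {k lam : Fin μ → Fin μ → ℕ} {S : Fin μ → Type}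
    {I : ∀ i j, S i → S j → Prop} (H : IsLinkedSystem v k lam S I)
    (hc : v.Prime ∨ ∀ i j, i ≠ j → (k i j).Coprime v) :
    ∀ i j h, i ≠ j → i ≠ h → j ≠ h → k i j ≠ k i h ∧ k i j + k i h ≠ v :=
  (main H hc).2.2

end Pool.Agent.Results.MP_65f012_co.SharedSetSizes
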